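import Pool.Agent.Y180.GP.Mel2

set_option autoImplicit false

/-!
Project GP, part MEL: the diagonal part as an integral over the right sides.
-/

namespace Pool.Agent.Y180.GP

open Complex Filter Topology MeasureTheory Set
open Pool.Agent.Y969.GP

noncomputable section

lemma prod_sub {ι : Type*} (s : Finset ι) (a b : ι → ℂ) (h : ι → ℝ) {W D : ℝ} (hW : 1 ≤ W)
    (hD : 0 ≤ D) (h0 : ∀ i, 0 ≤ h i) (ha : ∀ i, ‖a i‖ ≤ W * h i) (hb : ∀ i, ‖b i‖ ≤ W * h i)
    (hab : ∀ i, ‖a i - b i‖ ≤ D * h i) :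
    ‖∏ i ∈ s, a i - ∏ i ∈ s, b i‖ ≤ s.card * W ^ s.card * D * ∏ i ∈ s, h i := by
  classical
  induction s using Finset.induction_on with
  | empty => simp
  | insert i s hi ih =>
    rw [Finset.prod_insert hi, Finset.prod_insert hi, Finset.prod_insert hi,
      Finset.card_insert_of_notMem hi]
    have e1 : a i * ∏ x ∈ s, a x - b i * ∏ x ∈ s, b x =
        a i * (∏ x ∈ s, a x - ∏ x ∈ s, b x) + (a i - b i) * ∏ x ∈ s, b x := by ring
    have e2 : ‖∏ x ∈ s, b x‖ ≤ W ^ s.card * ∏ x ∈ s, h x := by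
      rw [norm_prod, ← Finset.prod_const, ← Finset.prod_mul_distrib]
      exact Finset.prod_le_prod (fun _ _ => norm_nonneg _) fun x _ => hb x
    have hP : 0 ≤ ∏ x ∈ s, h x := Finset.prod_nonneg fun x _ => h0 x
    rw [e1]
    calc _ ≤ ‖a i‖ * ‖∏ x ∈ s, a x - ∏ x ∈ s, b x‖ + ‖a i - b i‖ * ‖∏ x ∈ s, b x‖ := by
          rw [← norm_mul, ← norm_mul]
          exact norm_add_le _ _
      _ ≤ (W * h i) * (s.card * W ^ s.card * D * ∏ x ∈ s, h x) +
          (D * h i) * (W ^ s.card * ∏ x ∈ s, h x) := by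
          refine add_le_add (mul_le_mul (ha i) ih (norm_nonneg _) ?_)
            (mul_le_mul (hab i) e2 (norm_nonneg _) ?_)
          · exact mul_nonneg (by linarith) (h0 i)
          · exact mul_nonneg hD (h0 i)
      _ = (s.card * W ^ (s.card + 1) + W ^ s.card) * (D * (h i * ∏ x ∈ s, h x)) := by ring
      _ ≤ (s.card * W ^ (s.card + 1) + W ^ (s.card + 1)) * (D * (h i * ∏ x ∈ s, h x)) := by
          refine mul_le_mul_of_nonneg_right ?_ (mul_nonneg hD (mul_nonneg (h0 i) hP))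
          have := pow_le_pow_right₀ hW (Nat.le_succ s.card)
          simpa using this
      _ = _ := by
          push_cast
          ring

lemma sum_lam {K : ℕ} (x : IX K) : ∑ j, lam (qf x j) = 0 := by
  unfold lam
  rw [Finset.sum_sub_distrib, ← Real.log_prod, ← Real.log_prod]
  · have h3 : ∏ j, ((qf x j).1 : ℝ) = x.1 := by exact_mod_cast (qf_prod1 x).1
    have h4 : ∏ j, ((qf x j).2 : ℝ) = x.1 := by exact_mod_cast (qf_prod2 x).1
    rw [h3, h4, sub_self]
  · intro j _
    exact_mod_cast (qf_pos1 x j).ne'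
  · intro j _
    exact_mod_cast (qf_pos2 x j).ne'

lemma mem_PS {X : ℕ} {p : ℕ × ℕ} (h1 : 0 < p.1) (h2 : 0 < p.2) (h : p.1 * p.2 ≤ X) :
    p ∈ PS X := by
  unfold PS
  rw [Finset.mem_filter, Finset.mem_product, Finset.mem_Icc, Finset.mem_Icc]
  exact ⟨⟨⟨h1, (Nat.le_mul_of_pos_right _ h2).trans h⟩, ⟨h2, (Nat.le_mul_of_pos_left _ h1).trans h⟩⟩,
    h⟩

/-- the coefficient cut at the height `X` -/
def al (X : ℕ) (u : ℝ) (p : ℕ × ℕ) : ℝ := by
  classical
  exact if p ∈ PS X then co p u else 0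

lemma al_mem {X : ℕ} {u : ℝ} {p : ℕ × ℕ} (h : p ∈ PS X) : al X u p = co p u := by
  unfold al
  rw [if_pos h]

lemma al_notMem {X : ℕ} {u : ℝ} {p : ℕ × ℕ} (h : p ∉ PS X) : al X u p = 0 := by
  unfold al
  rw [if_neg h]

lemma MX_eq {n : ℕ} (X : ℕ) (c : Fin n → ℝ) (t : ℝ) : MX X c t =
    ∑' x : IX (n + 1), ∏ j, (cexp (I * ((cc c j * lam (qf x j) : ℝ) : ℂ)) *
      (al X (t + cc c j) (qf x j) : ℂ)) := by
  classical
  set s := (Fintype.piFinset fun _ : Fin (n + 1) => PS X).filter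
      (fun q => ∏ j, (q j).1 = ∏ j, (q j).2) with hs
  set F : (Fin (n + 1) → ℕ × ℕ) → ℂ := fun q => if q ∈ s then
    ∏ j, ((co (q j) (t + cc c j) : ℂ) * cexp (I * (((t + cc c j) * lam (q j) : ℝ) : ℂ))) else 0
    with hF
  have h1 : MX X c t = ∑' q, F q := by
    rw [tsum_eq_sum (s := s) (fun q hq => by rw [hF]; exact if_neg hq)]
    unfold MX
    rw [← hs]
    refine Finset.sum_congr rfl fun q hq => ?_
    rw [hF]
    simp only [if_pos hq]
  have h2 : Function.support F ⊆ Set.range (fun (x : IX (n + 1)) (j : Fin (n + 1)) => qf x j) := by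
    intro q hq
    have h3 : q ∈ s := by
      by_contra h4
      apply hq
      rw [hF]
      exact if_neg h4
    rw [hs, Finset.mem_filter, Fintype.mem_piFinset] at h3
    obtain ⟨x, hx⟩ := qf_range q (fun j => by
      have h4 := h3.1 j
      unfold PS at h4
      rw [Finset.mem_filter, Finset.mem_product, Finset.mem_Icc] at h4
      exact h4.1.1.1) h3.2
    exact ⟨x, hx⟩
  rw [h1, ← (qf_inj (n + 1)).tsum_eq h2]
  refine tsum_congr fun x => ?_
  have h5 : (fun j => qf x j) ∈ s ↔ ∀ j, qf x j ∈ PS X := by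
    rw [hs, Finset.mem_filter, Fintype.mem_piFinset]
    constructor
    · exact fun h => h.1
    · intro h
      refine ⟨h, ?_⟩
      show ∏ j, (qf x j).1 = ∏ j, (qf x j).2
      rw [(qf_prod1 x).1, (qf_prod2 x).1]
  by_cases h6 : ∀ j, qf x j ∈ PS X
  · rw [hF]
    simp only [if_pos (h5.2 h6)]
    have h7 : ∀ j, (al X (t + cc c j) (qf x j) : ℂ) = (co (qf x j) (t + cc c j) : ℂ) := by
      intro j
      rw [al_mem (h6 j)]
    simp only [h7, Finset.prod_mul_distrib]
    rw [mul_comm]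
    congr 1
    have h8 : ∀ j, cexp (I * (((t + cc c j) * lam (qf x j) : ℝ) : ℂ)) =
        cexp (I * ((t * lam (qf x j) : ℝ) : ℂ)) * cexp (I * ((cc c j * lam (qf x j) : ℝ) : ℂ)) := by
      intro j
      rw [← Complex.exp_add]
      congr 1
      push_cast
      ring
    simp only [h8, Finset.prod_mul_distrib]
    have h9 : ∏ j, cexp (I * ((t * lam (qf x j) : ℝ) : ℂ)) = 1 := by
      rw [← Complex.exp_sum, ← Finset.mul_sum, ← Complex.ofReal_sum, ← Finset.mul_sum, sum_lam]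
      simp
    rw [h9, one_mul]
  · rw [hF]
    simp only [if_neg (fun h => h6 (h5.1 h))]
    push Not at h6
    obtain ⟨j, hj⟩ := h6
    rw [Finset.prod_eq_zero (Finset.mem_univ j)]
    rw [al_notMem hj]
    simp

lemma tm_GG {n : ℕ} (c : Fin n → ℝ) (σ η H r : ℝ) (u : Fin (n + 1) → ℝ) (x : IX (n + 1))
    (θ : Fin (n + 1) → ℝ) :
    (∏ j, gam σ η H r Kd.R (θ j)) * tm (av c fun j => gam σ η H r Kd.R (θ j))
      (bv c fun j => gam σ η H r Kd.R (θ j)) x * ∏ j, wt σ η H r (u j) Kd.R (θ j) =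
    ∏ j, GG η H r (u j) (cc c j) (qf x j) (θ j) := by
  unfold tm
  have e0 : ((x.1 : ℕ) : ℂ)⁻¹ = ∏ j, (((√(ht (qf x j)))⁻¹ : ℝ) : ℂ) := by
    rw [← Complex.ofReal_prod, inv_prod x]
    push_cast
    rfl
  have e1 : ∀ j, GG η H r (u j) (cc c j) (qf x j) (θ j) =
      (((qf x j).2 : ℂ) ^ (I * bv c (fun j => gam σ η H r Kd.R (θ j)) j)) *
        (((qf x j).1 : ℂ) ^ (-(I * av c (fun j => gam σ η H r Kd.R (θ j)) j))) *
          (((√(ht (qf x j)))⁻¹ : ℝ) : ℂ) * gam σ η H r Kd.R (θ j) *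
            wt σ η H r (u j) Kd.R (θ j) := fun j => rfl
  simp only [e1, Finset.prod_mul_distrib]
  rw [e0]
  ring

lemma hyb_eq {n : ℕ} (c : Fin n → ℝ) {η : ℝ} (hη : 0 < η) (hη1 : η < 1 / 16) (σ H r T : ℝ)
    (hT : 0 < T) (u : Fin (n + 1) → ℝ) (hu : ∀ j, 0 < u j) (huT : ∀ j, u j ≤ 2 * T) :
    hyb σ η H r u (fun _ => Kd.R) (Ps c) =
      ∑' x : IX (n + 1), ∏ j, (cexp (I * ((cc c j * lam (qf x j) : ℝ) : ℂ)) *
        be η H (u j) (qf x j)) := by
  set F : IX (n + 1) → (Fin (n + 1) → ℝ) → ℂ := fun x θ =>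
    ∏ j, GG η H r (u j) (cc c j) (qf x j) (θ j) with hF
  have h1 : ∀ x, Integrable (F x) := by
    intro x
    rw [hF, volume_pi]
    exact Integrable.fintype_prod fun j => GG_int hη (hu j) (qf_pos1 x j) (qf_pos2 x j)
  have h2 : ∀ x, ∫ θ, ‖F x θ‖ = ∏ j, ∫ θ, ‖GG η H r (u j) (cc c j) (qf x j) θ‖ := by
    intro x
    rw [← integral_fintype_prod_volume_eq_prod]
    refine integral_congr_ae (Eventually.of_forall fun θ => ?_)
    simp only [hF, norm_prod]
  have h3 : Summable (fun x => ∫ θ, ‖F x θ‖) := by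
    refine Summable.of_nonneg_of_le (fun x => integral_nonneg fun _ => norm_nonneg _)
      (fun x => ?_) ((hh_summable (n + 1) hη).mul_left
        ((2 * (Real.exp (η ^ 2) / η) * JJ * T ^ η) ^ (n + 1)))
    rw [h2]
    calc _ ≤ ∏ j, ((2 * (Real.exp (η ^ 2) / η) * JJ * T ^ η) * hh η (qf x j)) :=
          Finset.prod_le_prod (fun j _ => integral_nonneg fun _ => norm_nonneg _) fun j _ =>
            GG_norm hη (hu j) hT (huT j) (qf_pos1 x j) (qf_pos2 x j)
      _ = _ := by
          rw [Finset.prod_mul_distrib, Finset.prod_const, Finset.card_univ, Fintype.card_fin]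
  have h4 := integral_tsum_of_summable_integral_norm h1 h3
  have h5 : hyb σ η H r u (fun _ => Kd.R) (Ps c) = ∫ θ, ∑' x, F x θ := by
    unfold hyb
    refine integral_congr_ae (Eventually.of_forall fun θ => ?_)
    have hs : ∀ j, ((fun j => gam σ η H r Kd.R (θ j)) j).re = η := by
      intro j
      show ((η : ℂ) + I * θ j).re = η
      simp
    show Ps c (fun j => gam σ η H r Kd.R (θ j)) * ∏ j, wt σ η H r (u j) Kd.R (θ j) = ∑' x, F x θ
    rw [Ps_eq c hη hη1 hs, ← tsum_mul_left, ← tsum_mul_right]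
    exact tsum_congr fun x => tm_GG c σ η H r u x θ
  rw [h5, ← h4]
  refine tsum_congr fun x => ?_
  rw [hF]
  simp only
  rw [integral_fintype_prod_volume_eq_prod]
  exact Finset.prod_congr rfl fun j _ => GG_integral hη (hu j) (qf_pos1 x j) (qf_pos2 x j)

theorem t_MEL (hV : S_V) : S_MEL := by
  intro n ε η hε hη hη1
  obtain ⟨C1, hC1, hco⟩ := co_norm hV hη
  set E : ℝ := ((n : ℝ) + 2) * η + 2 with hE
  have hE0 : 0 < E := by positivity
  obtain ⟨C2, hC2, hla⟩ := co_large hV hη (B := E / ε) (by positivity)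
  have hJ := JJ_nonneg
  set C3 : ℝ := 2 * (Real.exp (η ^ 2) / η) * JJ with hC3
  have hC30 : 0 ≤ C3 := by positivity
  set W0 : ℝ := 1 + C1 + C3 with hW0
  have hW00 : 1 ≤ W0 := by linarith
  set S : ℝ := ∑' x : IX (n + 1), ∏ j, hh η (qf x j) with hS
  have hS0 : 0 ≤ S := tsum_nonneg fun x => Finset.prod_nonneg fun j _ => hh_nonneg _ _
  set Cs : ℝ := ((n : ℝ) + 1) * W0 ^ (n + 1) * (C2 + C3) * S with hCs
  have hCs0 : 0 ≤ Cs := by positivity
  refine ⟨2 + Cs + Real.exp (2 * E), by linarith [Real.exp_pos (2 * E)], ?_⟩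
  intro T t σ r X c hT hX ht1 htT hc
  have hexp := Real.exp_pos (2 * E)
  have hT2 : 2 ≤ T := by linarith
  have hT0 : 0 < T := by linarith
  have hT1 : 1 ≤ T := by linarith
  have hH : 0 ≤ Real.log T := Real.log_nonneg hT1
  have hu : ∀ j, 0 < t + cc c j := by
    intro j
    refine Fin.cases ?_ (fun i => ?_) j
    · unfold cc
      simp
      linarith
    · unfold cc
      simp only [Fin.cons_succ]
      linarith [(hc i).1]
  have huT : ∀ j, t + cc c j ≤ 2 * T := by
    intro j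
    refine Fin.cases ?_ (fun i => ?_) j
    · unfold cc
      simp
      linarith
    · unfold cc
      simp only [Fin.cons_succ]
      linarith [(hc i).2]
  have hTη : 1 ≤ T ^ η := Real.one_le_rpow hT1 hη.le
  -- the two small quantities
  have hsm1 : (T ^ ε) ^ (-(E / ε)) = T ^ (-E) := by
    rw [← Real.rpow_mul hT0.le]
    congr 1
    field_simp
  have hsm2 : Real.exp (-(Real.log T ^ 2) / 2) ≤ T ^ (-E) := by
    rw [Real.rpow_def_of_pos hT0]
    apply Real.exp_le_exp.2
    have h1 : 2 * E ≤ Real.log T := by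
      rw [Real.le_log_iff_exp_le hT0]
      linarith
    nlinarith
  set D : ℝ := (C2 + C3) * T ^ η * T ^ (-E) with hD
  have hD0 : 0 ≤ D := by positivity
  have hW : 1 ≤ W0 * T ^ η := by nlinarith
  rw [MX_eq, hyb_eq c hη hη1 σ (Real.log T) r T hT0 (fun j => t + cc c j) hu huT]
  have hun : ∀ z : ℝ, ‖cexp (I * (z : ℂ))‖ = 1 := by
    intro z
    rw [mul_comm, Complex.norm_exp_ofReal_mul_I]
  -- bounds
  have ha : ∀ (x : IX (n + 1)) (j : Fin (n + 1)), ‖cexp (I * ((cc c j * lam (qf x j) : ℝ) : ℂ)) *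
      (al X (t + cc c j) (qf x j) : ℂ)‖ ≤ (W0 * T ^ η) * hh η (qf x j) := by
    intro x j
    rw [norm_mul, hun, one_mul, Complex.norm_real, Real.norm_eq_abs]
    have h1 := hco (t + cc c j) T (hu j) hT0 (huT j) (qf x j) (qf_pos1 x j) (qf_pos2 x j)
    have h2 : C1 * T ^ η * hh η (qf x j) ≤ (W0 * T ^ η) * hh η (qf x j) := by
      refine mul_le_mul_of_nonneg_right ?_ (hh_nonneg _ _)
      exact mul_le_mul_of_nonneg_right (by linarith) (by positivity)
    by_cases h : qf x j ∈ PS X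
    · rw [al_mem h]
      exact h1.trans h2
    · rw [al_notMem h, abs_zero]
      exact (abs_nonneg _).trans (h1.trans h2)
  have hb : ∀ (x : IX (n + 1)) (j : Fin (n + 1)), ‖cexp (I * ((cc c j * lam (qf x j) : ℝ) : ℂ)) *
      be η (Real.log T) (t + cc c j) (qf x j)‖ ≤ (W0 * T ^ η) * hh η (qf x j) := by
    intro x j
    rw [norm_mul, hun, one_mul]
    refine (be_norm hη (hu j) hT0 (huT j) (qf_pos1 x j) (qf_pos2 x j)).trans ?_
    refine mul_le_mul_of_nonneg_right ?_ (hh_nonneg _ _)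
    exact mul_le_mul_of_nonneg_right (by linarith) (by positivity)
  have hab : ∀ (x : IX (n + 1)) (j : Fin (n + 1)), ‖cexp (I * ((cc c j * lam (qf x j) : ℝ) : ℂ)) *
      (al X (t + cc c j) (qf x j) : ℂ) - cexp (I * ((cc c j * lam (qf x j) : ℝ) : ℂ)) *
      be η (Real.log T) (t + cc c j) (qf x j)‖ ≤ D * hh η (qf x j) := by
    intro x j
    rw [← mul_sub, norm_mul, hun, one_mul]
    have h0 := hh_nonneg η (qf x j)
    have h1 := co_sub_be hV hη hH (hu j) hT0 (huT j) (qf_pos1 x j) (qf_pos2 x j)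
    have h2 : C3 * T ^ η * Real.exp (-(Real.log T ^ 2) / 2) * hh η (qf x j) ≤
        C3 * T ^ η * T ^ (-E) * hh η (qf x j) :=
      mul_le_mul_of_nonneg_right (mul_le_mul_of_nonneg_left hsm2 (by positivity)) h0
    have h3 := h1.trans h2
    have h4 : D * hh η (qf x j) = C2 * T ^ η * T ^ (-E) * hh η (qf x j) +
        C3 * T ^ η * T ^ (-E) * hh η (qf x j) := by
      rw [hD]
      ring
    have h5 : 0 ≤ C2 * T ^ η * T ^ (-E) * hh η (qf x j) := by positivity
    by_cases h : qf x j ∈ PS X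
    · rw [al_mem h, h4]
      linarith
    · rw [al_notMem h, Complex.ofReal_zero, zero_sub, norm_neg]
      have h6 : (T ^ ε) * T ≤ ht (qf x j) := by
        have h7 : X < (qf x j).1 * (qf x j).2 := by
          by_contra h8
          exact h (mem_PS (qf_pos1 x j) (qf_pos2 x j) (not_lt.1 h8))
        have h9 : (X : ℝ) < ht (qf x j) := by
          unfold ht
          exact_mod_cast h7
        have h10 : T ^ ε * T = T ^ (1 + ε) := by
          rw [Real.rpow_add hT0, Real.rpow_one, mul_comm]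
        rw [h10]
        linarith
      have h11 := hla (t + cc c j) T (T ^ ε) (hu j) hT1 (huT j) (by positivity) (qf x j)
        (qf_pos1 x j) (qf_pos2 x j) h6
      rw [hsm1] at h11
      have h12 : ‖be η (Real.log T) (t + cc c j) (qf x j)‖ ≤
          ‖(co (qf x j) (t + cc c j) : ℂ)‖ +
            ‖(co (qf x j) (t + cc c j) : ℂ) - be η (Real.log T) (t + cc c j) (qf x j)‖ := by
        have := norm_sub_le ((co (qf x j) (t + cc c j) : ℂ))
          ((co (qf x j) (t + cc c j) : ℂ) - be η (Real.log T) (t + cc c j) (qf x j))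
        rw [sub_sub_cancel] at this
        exact this
      rw [Complex.norm_real, Real.norm_eq_abs] at h12
      rw [h4]
      linarith
  have hsum := hh_summable (n + 1) hη
  have hA : Summable (fun x : IX (n + 1) => ∏ j, (cexp (I * ((cc c j * lam (qf x j) : ℝ) : ℂ)) *
      (al X (t + cc c j) (qf x j) : ℂ))) := by
    refine Summable.of_norm_bounded (hsum.mul_left ((W0 * T ^ η) ^ (n + 1))) fun x => ?_
    rw [norm_prod]
    calc _ ≤ ∏ j, ((W0 * T ^ η) * hh η (qf x j)) :=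
          Finset.prod_le_prod (fun j _ => norm_nonneg _) fun j _ => ha x j
      _ = _ := by
          rw [Finset.prod_mul_distrib, Finset.prod_const, Finset.card_univ, Fintype.card_fin]
  have hB : Summable (fun x : IX (n + 1) => ∏ j, (cexp (I * ((cc c j * lam (qf x j) : ℝ) : ℂ)) *
      be η (Real.log T) (t + cc c j) (qf x j))) := by
    refine Summable.of_norm_bounded (hsum.mul_left ((W0 * T ^ η) ^ (n + 1))) fun x => ?_
    rw [norm_prod]
    calc _ ≤ ∏ j, ((W0 * T ^ η) * hh η (qf x j)) :=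
          Finset.prod_le_prod (fun j _ => norm_nonneg _) fun j _ => hb x j
      _ = _ := by
          rw [Finset.prod_mul_distrib, Finset.prod_const, Finset.card_univ, Fintype.card_fin]
  rw [← hA.tsum_sub hB]
  have hfin : ‖∑' x : IX (n + 1), (∏ j, (cexp (I * ((cc c j * lam (qf x j) : ℝ) : ℂ)) *
      (al X (t + cc c j) (qf x j) : ℂ)) - ∏ j, (cexp (I * ((cc c j * lam (qf x j) : ℝ) : ℂ)) *
      be η (Real.log T) (t + cc c j) (qf x j)))‖ ≤
      (((n : ℝ) + 1) * (W0 * T ^ η) ^ (n + 1) * D) * S := by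
    refine tsum_of_norm_bounded (hsum.hasSum.mul_left (((n : ℝ) + 1) * (W0 * T ^ η) ^ (n + 1) * D))
      fun x => ?_
    have := prod_sub Finset.univ _ _ (fun j => hh η (qf x j)) hW hD0 (fun j => hh_nonneg _ _)
      (ha x) (hb x) (hab x)
    rw [Finset.card_univ, Fintype.card_fin] at this
    push_cast at this
    push_cast
    exact this
  refine hfin.trans ?_
  have e1 : (((n : ℝ) + 1) * (W0 * T ^ η) ^ (n + 1) * D) * S =
      Cs * ((T ^ η) ^ (n + 1) * T ^ η * T ^ (-E)) := by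
    rw [hCs, hD, mul_pow]
    ring
  have e2 : (T ^ η) ^ (n + 1) * T ^ η * T ^ (-E) = T ^ (-2 : ℝ) := by
    rw [← Real.rpow_natCast, ← Real.rpow_mul hT0.le, ← Real.rpow_add hT0, ← Real.rpow_add hT0]
    congr 1
    rw [hE]
    push_cast
    ring
  rw [e1, e2]
  have e3 : T ^ (-2 : ℝ) = T⁻¹ * T⁻¹ := by
    rw [← Real.rpow_neg_one, ← Real.rpow_add hT0]
    norm_num
  rw [e3, ← mul_assoc]
  have e4 : Cs * T⁻¹ ≤ 1 := by
    rw [mul_inv_le_iff₀ hT0, one_mul]
    linarith
  exact mul_le_of_le_one_left (by positivity) e4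

end

end Pool.Agent.Y180.GP
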