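import Pool.Agent.Y969.GP.Def2

set_option autoImplicit false

/-!
Project GP, part MEL: tuples of pairs with equal products, and the diagonal series as a sum over
them.
-/

namespace Pool.Agent.Y180.GP

open Complex Filter Topology MeasureTheory Set
open Pool.Agent.TH612.CF (FH Tb dg dg_summable zh_eq)
open Pool.Agent.W182.KO (tau)
open Pool.Agent.Y969.GP

noncomputable section

/-- pairs of tuples with the same product -/
abbrev IX (K : ℕ) : Type := Σ N : ℕ, ↥(Nat.finMulAntidiag K N ×ˢ Nat.finMulAntidiag K N)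

/-- the pairs -/
def qf {K : ℕ} (x : IX K) (j : Fin K) : ℕ × ℕ := (x.2.1.1 j, x.2.1.2 j)

lemma qf_prod1 {K : ℕ} (x : IX K) : ∏ j, (qf x j).1 = x.1 ∧ x.1 ≠ 0 := by
  have h := x.2.2
  rw [Finset.mem_product, Nat.mem_finMulAntidiag, Nat.mem_finMulAntidiag] at h
  exact h.1

lemma qf_prod2 {K : ℕ} (x : IX K) : ∏ j, (qf x j).2 = x.1 ∧ x.1 ≠ 0 := by
  have h := x.2.2
  rw [Finset.mem_product, Nat.mem_finMulAntidiag, Nat.mem_finMulAntidiag] at h
  exact h.2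

lemma qf_pos1 {K : ℕ} (x : IX K) (j : Fin K) : 0 < (qf x j).1 := by
  obtain ⟨h1, h2⟩ := qf_prod1 x
  rw [← h1, Finset.prod_ne_zero_iff] at h2
  exact Nat.pos_of_ne_zero (h2 j (Finset.mem_univ j))

lemma qf_pos2 {K : ℕ} (x : IX K) (j : Fin K) : 0 < (qf x j).2 := by
  obtain ⟨h1, h2⟩ := qf_prod2 x
  rw [← h1, Finset.prod_ne_zero_iff] at h2
  exact Nat.pos_of_ne_zero (h2 j (Finset.mem_univ j))

lemma qf_inj (K : ℕ) : Function.Injective (fun (x : IX K) (j : Fin K) => qf x j) := by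
  rintro ⟨N, ⟨⟨f, g⟩, hx⟩⟩ ⟨N', ⟨⟨f', g'⟩, hx'⟩⟩ h
  have h1 : f = f' := by
    funext j
    exact congrArg Prod.fst (congrFun h j)
  have h2 : g = g' := by
    funext j
    exact congrArg Prod.snd (congrFun h j)
  subst h1
  subst h2
  have e1 := (Nat.mem_finMulAntidiag.1 (Finset.mem_product.1 hx).1).1
  have e2 := (Nat.mem_finMulAntidiag.1 (Finset.mem_product.1 hx').1).1
  have h3 : N = N' := by
    rw [← e1, ← e2]
  subst h3
  rfl

lemma qf_range {K : ℕ} (q : Fin K → ℕ × ℕ) (h0 : ∀ j, 0 < (q j).1)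
    (h : ∏ j, (q j).1 = ∏ j, (q j).2) : ∃ x : IX K, (fun j => qf x j) = q := by
  have h1 : ∏ j, (q j).1 ≠ 0 := Finset.prod_ne_zero_iff.2 fun j _ => (h0 j).ne'
  refine ⟨⟨∏ j, (q j).1, ⟨(fun j => (q j).1, fun j => (q j).2), ?_⟩⟩, rfl⟩
  rw [Finset.mem_product, Nat.mem_finMulAntidiag, Nat.mem_finMulAntidiag]
  exact ⟨⟨rfl, h1⟩, ⟨h.symm, h1⟩⟩

lemma ht_pos {p : ℕ × ℕ} (h1 : 0 < p.1) (h2 : 0 < p.2) : 1 ≤ ht p := by
  unfold ht
  have h3 : 1 ≤ p.1 * p.2 := Nat.mul_pos h1 h2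
  exact_mod_cast h3

lemma inv_prod {K : ℕ} (x : IX K) : ∏ j, (√(ht (qf x j)))⁻¹ = ((x.1 : ℕ) : ℝ)⁻¹ := by
  rw [Finset.prod_inv_distrib]
  congr 1
  have h1 : (∏ j, √(ht (qf x j))) ^ 2 = ((x.1 : ℕ) : ℝ) ^ 2 := by
    rw [← Finset.prod_pow]
    have h2 : ∀ j, √(ht (qf x j)) ^ 2 = ((qf x j).1 : ℝ) * (qf x j).2 := by
      intro j
      rw [Real.sq_sqrt (by have := ht_pos (qf_pos1 x j) (qf_pos2 x j); linarith)]
      rfl
    simp only [h2]
    rw [Finset.prod_mul_distrib]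
    have h3 : ∏ j, ((qf x j).1 : ℝ) = x.1 := by exact_mod_cast (qf_prod1 x).1
    have h4 : ∏ j, ((qf x j).2 : ℝ) = x.1 := by exact_mod_cast (qf_prod2 x).1
    rw [h3, h4, sq]
  exact (pow_left_inj₀ (Finset.prod_nonneg fun j _ => Real.sqrt_nonneg _) (Nat.cast_nonneg _)
    two_ne_zero).1 h1

/-- a term of the diagonal series -/
def tm {K : ℕ} (a b : Fin K → ℂ) (x : IX K) : ℂ :=
  (∏ j, ((qf x j).2 : ℂ) ^ (I * b j)) * (∏ j, ((qf x j).1 : ℂ) ^ (-(I * a j))) * (x.1 : ℂ)⁻¹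

lemma dg_eq {K : ℕ} (a b : Fin K → ℂ) (N : ℕ) : dg a b N =
    ∑' y : ↥(Nat.finMulAntidiag K N ×ˢ Nat.finMulAntidiag K N), tm a b ⟨N, y⟩ := by
  rw [tsum_fintype]
  have h1 : (∑ y : ↥(Nat.finMulAntidiag K N ×ˢ Nat.finMulAntidiag K N), tm a b ⟨N, y⟩) =
      ∑ y ∈ Nat.finMulAntidiag K N ×ˢ Nat.finMulAntidiag K N,
        (∏ j, ((y.2 j : ℕ) : ℂ) ^ (I * b j)) * (∏ j, ((y.1 j : ℕ) : ℂ) ^ (-(I * a j))) *
          (N : ℂ)⁻¹ :=
    Finset.sum_coe_sort (Nat.finMulAntidiag K N ×ˢ Nat.finMulAntidiag K N)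
      (fun y => (∏ j, ((y.2 j : ℕ) : ℂ) ^ (I * b j)) * (∏ j, ((y.1 j : ℕ) : ℂ) ^ (-(I * a j))) *
          (N : ℂ)⁻¹)
  rw [h1, Finset.sum_product_right]
  unfold dg tau
  rw [Finset.sum_mul_sum, Finset.sum_mul]
  refine Finset.sum_congr rfl fun g _ => ?_
  rw [Finset.sum_mul]

/-- the weight of a pair -/
def hh (η : ℝ) (p : ℕ × ℕ) : ℝ := (√(ht p))⁻¹ * (ht p) ^ (-η)

lemma hh_nonneg (η : ℝ) (p : ℕ × ℕ) : 0 ≤ hh η p := by
  unfold hh ht
  positivity

lemma tm_norm {K : ℕ} {a b : Fin K → ℂ} {η : ℝ} (ha : ∀ j, (a j).im = -η)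
    (hb : ∀ j, (b j).im = η) (x : IX K) : ‖tm a b x‖ = ∏ j, hh η (qf x j) := by
  unfold tm
  rw [norm_mul, norm_mul, norm_prod, norm_prod, norm_inv, Complex.norm_natCast, ← inv_prod x,
    ← Finset.prod_mul_distrib, ← Finset.prod_mul_distrib]
  refine Finset.prod_congr rfl fun j _ => ?_
  rw [Complex.norm_natCast_cpow_of_pos (qf_pos2 x j), Complex.norm_natCast_cpow_of_pos (qf_pos1 x j)]
  have e1 : (I * b j).re = -η := by simp [hb j]
  have e2 : (-(I * a j)).re = -η := by simp [ha j]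
  rw [e1, e2]
  unfold hh
  have e3 : (ht (qf x j)) ^ (-η) = ((qf x j).1 : ℝ) ^ (-η) * ((qf x j).2 : ℝ) ^ (-η) := by
    unfold ht
    rw [Real.mul_rpow (Nat.cast_nonneg _) (Nat.cast_nonneg _)]
  rw [e3]
  ring

lemma tm_real {K : ℕ} {η : ℝ} (x : IX K) :
    tm (fun _ => -(I * (η : ℂ))) (fun _ => I * (η : ℂ)) x = ((∏ j, hh η (qf x j) : ℝ) : ℂ) := by
  unfold tm
  have e0 : ((x.1 : ℕ) : ℂ)⁻¹ = ((∏ j, (√(ht (qf x j)))⁻¹ : ℝ) : ℂ) := by
    rw [inv_prod x]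
    push_cast
    rfl
  rw [e0, Complex.ofReal_prod, Complex.ofReal_prod, ← Finset.prod_mul_distrib,
    ← Finset.prod_mul_distrib]
  refine Finset.prod_congr rfl fun j _ => ?_
  have e1 : I * (I * (η : ℂ)) = ((-η : ℝ) : ℂ) := by
    rw [← mul_assoc, I_mul_I]
    push_cast
    ring
  have e2 : -(I * -(I * (η : ℂ))) = ((-η : ℝ) : ℂ) := by
    rw [mul_neg, neg_neg, e1]
  rw [e1, e2]
  have e3 : ∀ m : ℕ, ((m : ℕ) : ℂ) ^ (((-η : ℝ) : ℂ)) = (((m : ℝ) ^ (-η) : ℝ) : ℂ) := by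
    intro m
    rw [Complex.ofReal_cpow (Nat.cast_nonneg _)]
    push_cast
    rfl
  rw [e3, e3, ← Complex.ofReal_mul, ← Complex.ofReal_mul]
  congr 1
  unfold hh ht
  rw [Real.mul_rpow (Nat.cast_nonneg _) (Nat.cast_nonneg _)]
  ring

/-- the tuples are summable -/
lemma hh_summable (K : ℕ) {η : ℝ} (hη : 0 < η) :
    Summable (fun x : IX K => ∏ j, hh η (qf x j)) := by
  rw [summable_sigma_of_nonneg fun x => Finset.prod_nonneg fun j _ => hh_nonneg _ _]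
  refine ⟨fun N => Summable.of_finite, ?_⟩
  have h1 := dg_summable (a := fun _ : Fin K => -(I * (η : ℂ))) (b := fun _ : Fin K => I * (η : ℂ))
    hη (fun j => by simp)
  refine h1.congr fun N => ?_
  rw [dg_eq]
  simp only [tm_real]
  rw [← Complex.ofReal_tsum, Complex.norm_real, Real.norm_of_nonneg]
  exact tsum_nonneg fun y => Finset.prod_nonneg fun j _ => hh_nonneg _ _

lemma tm_summable {K : ℕ} {a b : Fin K → ℂ} {η : ℝ} (hη : 0 < η) (ha : ∀ j, (a j).im = -η)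
    (hb : ∀ j, (b j).im = η) : Summable (tm a b) := by
  apply Summable.of_norm
  exact (hh_summable K hη).congr fun x => (tm_norm ha hb x).symm

lemma tsum_dg {K : ℕ} {a b : Fin K → ℂ} {η : ℝ} (hη : 0 < η) (ha : ∀ j, (a j).im = -η)
    (hb : ∀ j, (b j).im = η) : ∑' N, dg a b N = ∑' x : IX K, tm a b x := by
  rw [(tm_summable hη ha hb).tsum_sigma' fun N => Summable.of_finite]
  exact tsum_congr fun N => dg_eq a b N

/-- `Ps` on the right sides -/
lemma Ps_eq {n : ℕ} (c : Fin n → ℝ) {η : ℝ} (hη : 0 < η) (hη1 : η < 1 / 16)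
    {s : Fin (n + 1) → ℂ} (hs : ∀ j, (s j).re = η) :
    Ps c s = (∏ j, s j) * ∑' x : IX (n + 1), tm (av c s) (bv c s) x := by
  have ha : ∀ j, (av c s j).im = -η := by
    intro j
    unfold av
    simp [hs j]
  have hb : ∀ j, (bv c s j).im = η := by
    intro j
    unfold bv
    simp [hs j]
  have h1 := zh_eq (a := av c s) (b := bv c s) (c := 1 / 8) (δ := η) (by norm_num)
    (fun j => by
      rw [ha j, hb j, abs_neg, abs_of_pos hη]
      constructor <;> linarith) hη (fun j => by rw [ha j, hb j]; exact ⟨le_rfl, le_rfl⟩)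
  rw [← tsum_dg hη ha hb, ← h1]
  unfold Ps
  have h2 : ∀ j, Z1 (s j) = s j * riemannZeta (1 + 2 * s j) := by
    intro j
    unfold Z1
    rw [Function.update_of_ne]
    intro h
    have := hs j
    rw [h] at this
    simp at this
    linarith
  have h3 : ∀ i : Fin (n + 1), (∏ l, riemannZeta (1 + I * av c s i - I * bv c s l)) =
      riemannZeta (1 + 2 * s i) * ∏ l ∈ Finset.univ.erase i,
        riemannZeta (1 + s i + s l + I * (cc c i - cc c l)) := by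
    intro i
    rw [← Finset.mul_prod_erase Finset.univ _ (Finset.mem_univ i)]
    have e : ∀ l, 1 + I * av c s i - I * bv c s l = 1 + s i + s l + I * (cc c i - cc c l) := by
      intro l
      unfold av bv
      linear_combination (-(s i) - s l) * I_mul_I
    congr 1
    · rw [e i]
      congr 1
      ring
    · exact Finset.prod_congr rfl fun l _ => by rw [e l]
  simp only [h2, h3, Finset.prod_mul_distrib]
  ring

end

end Pool.Agent.Y180.GP
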