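import Pool.Agent.Y180.GP.Mel1

set_option autoImplicit false

/-!
Project GP, part MEL: the one variable integrals.
-/

namespace Pool.Agent.Y180.GP

open Complex Filter Topology MeasureTheory Set
open Pool.Agent.Y969.GP

noncomputable section

/-- the integrand of the Mellin formula -/
def ph (η x θ : ℝ) : ℂ :=
  cexp (-(((η : ℂ) + I * θ) * (Real.log x : ℝ))) * cexp (((η : ℂ) + I * θ) ^ 2) / ((η : ℂ) + I * θ)

lemma s_ne {η : ℝ} (hη : 0 < η) (θ : ℝ) : (η : ℂ) + I * θ ≠ 0 := by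
  intro h
  have := congrArg Complex.re h
  simp at this
  linarith

lemma ph_norm {η : ℝ} (hη : 0 < η) {x : ℝ} (hx : 0 < x) (θ : ℝ) :
    ‖ph η x θ‖ ≤ x ^ (-η) * (Real.exp (η ^ 2) / η) * Real.exp (-1 * θ ^ 2) := by
  unfold ph
  rw [norm_div, norm_mul, Complex.norm_exp, Complex.norm_exp]
  have e1 : (-(((η : ℂ) + I * θ) * (Real.log x : ℝ))).re = Real.log x * (-η) := by
    simp
    ring
  have e2 : ((((η : ℂ) + I * θ) ^ 2)).re = η ^ 2 + -1 * θ ^ 2 := by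
    rw [sq, Complex.mul_re]
    simp
    ring
  rw [e1, e2, Real.exp_add, ← Real.rpow_def_of_pos hx]
  have e3 : η ≤ ‖(η : ℂ) + I * θ‖ := by
    have h1 := Complex.abs_re_le_norm ((η : ℂ) + I * θ)
    have h2 : ((η : ℂ) + I * θ).re = η := by simp
    rw [h2, abs_of_pos hη] at h1
    exact h1
  have e4 : 0 < ‖(η : ℂ) + I * θ‖ := lt_of_lt_of_le hη e3
  rw [div_le_iff₀ e4]
  have e5 : x ^ (-η) * (Real.exp (η ^ 2) / η) * Real.exp (-1 * θ ^ 2) * ‖(η : ℂ) + I * θ‖ =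
      x ^ (-η) * (Real.exp (η ^ 2) * Real.exp (-1 * θ ^ 2)) * (‖(η : ℂ) + I * θ‖ / η) := by
    field_simp
  rw [e5]
  have e6 : 1 ≤ ‖(η : ℂ) + I * θ‖ / η := by
    rw [le_div_iff₀ hη, one_mul]
    exact e3
  exact le_mul_of_one_le_right (by positivity) e6

lemma ph_cont {η : ℝ} (hη : 0 < η) (x : ℝ) : Continuous (ph η x) := by
  unfold ph
  refine Continuous.div ?_ ?_ (s_ne hη)
  · fun_prop
  · fun_prop

lemma gauss (b : ℝ) (hb : 0 < b) : Integrable (fun θ : ℝ => Real.exp (-b * θ ^ 2)) :=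
  integrable_exp_neg_mul_sq hb

lemma ph_int {η : ℝ} (hη : 0 < η) {x : ℝ} (hx : 0 < x) : Integrable (ph η x) := by
  refine Integrable.mono' ((gauss 1 one_pos).const_mul (x ^ (-η) * (Real.exp (η ^ 2) / η)))
    (ph_cont hη x).aestronglyMeasurable (Eventually.of_forall fun θ => ?_)
  exact ph_norm hη hx θ

/-- the truncated integrand -/
def pt (η x H : ℝ) (θ : ℝ) : ℂ := (Icc (-H) H).indicator (ph η x) θ

lemma pt_int {η : ℝ} (hη : 0 < η) {x : ℝ} (hx : 0 < x) (H : ℝ) : Integrable (pt η x H) := by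
  unfold pt
  exact (ph_int hη hx).indicator measurableSet_Icc

lemma pt_norm {η : ℝ} (hη : 0 < η) {x : ℝ} (hx : 0 < x) (H θ : ℝ) :
    ‖pt η x H θ‖ ≤ x ^ (-η) * (Real.exp (η ^ 2) / η) * Real.exp (-1 * θ ^ 2) := by
  unfold pt
  by_cases h : θ ∈ Icc (-H) H
  · rw [indicator_of_mem h]
    exact ph_norm hη hx θ
  · rw [indicator_of_notMem h, norm_zero]
    positivity

lemma ph_sub_pt {η : ℝ} (hη : 0 < η) {x : ℝ} (hx : 0 < x) {H : ℝ} (hH : 0 ≤ H) (θ : ℝ) :
    ‖ph η x θ - pt η x H θ‖ ≤ x ^ (-η) * (Real.exp (η ^ 2) / η) * Real.exp (-(H ^ 2) / 2) *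
      Real.exp (-(1 / 2) * θ ^ 2) := by
  unfold pt
  by_cases h : θ ∈ Icc (-H) H
  · rw [indicator_of_mem h, sub_self, norm_zero]
    positivity
  · rw [indicator_of_notMem h, sub_zero]
    refine (ph_norm hη hx θ).trans ?_
    rw [mul_assoc (x ^ (-η) * (Real.exp (η ^ 2) / η)), ← Real.exp_add]
    refine mul_le_mul_of_nonneg_left (Real.exp_le_exp.2 ?_) (by positivity)
    have h1 : H ^ 2 ≤ θ ^ 2 := by
      rw [← sq_abs θ]
      have h2 : H ≤ |θ| := by
        by_contra h3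
        push Not at h3
        exact h (by rw [mem_Icc]; exact abs_le.1 h3.le)
      exact pow_le_pow_left₀ hH h2 2
    linarith

/-- Gaussian integrals -/
def JJ : ℝ := (∫ θ : ℝ, Real.exp (-1 * θ ^ 2)) + ∫ θ : ℝ, Real.exp (-(1 / 2) * θ ^ 2)

lemma JJ_nonneg : 0 ≤ JJ :=
  add_nonneg (integral_nonneg fun _ => (Real.exp_pos _).le)
    (integral_nonneg fun _ => (Real.exp_pos _).le)

lemma pt_integral_norm {η : ℝ} (hη : 0 < η) {x : ℝ} (hx : 0 < x) (H : ℝ) :
    ∫ θ, ‖pt η x H θ‖ ≤ x ^ (-η) * (Real.exp (η ^ 2) / η) * JJ := by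
  calc ∫ θ, ‖pt η x H θ‖ ≤ ∫ θ, x ^ (-η) * (Real.exp (η ^ 2) / η) * Real.exp (-1 * θ ^ 2) :=
        integral_mono (pt_int hη hx H).norm ((gauss 1 one_pos).const_mul _) (pt_norm hη hx H)
    _ = x ^ (-η) * (Real.exp (η ^ 2) / η) * ∫ θ : ℝ, Real.exp (-1 * θ ^ 2) :=
        integral_const_mul _ _
    _ ≤ _ := by
        refine mul_le_mul_of_nonneg_left ?_ (by positivity)
        unfold JJ
        linarith [integral_nonneg (μ := volume)
          (f := fun θ : ℝ => Real.exp (-(1 / 2) * θ ^ 2)) fun θ => (Real.exp_pos _).le]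

lemma ph_pt_integral {η : ℝ} (hη : 0 < η) {x : ℝ} (hx : 0 < x) {H : ℝ} (hH : 0 ≤ H) :
    ‖(∫ θ, ph η x θ) - ∫ θ, pt η x H θ‖ ≤
      x ^ (-η) * (Real.exp (η ^ 2) / η) * Real.exp (-(H ^ 2) / 2) * JJ := by
  rw [← integral_sub (ph_int hη hx) (pt_int hη hx H)]
  calc ‖∫ θ, (ph η x θ - pt η x H θ)‖ ≤ ∫ θ, ‖ph η x θ - pt η x H θ‖ :=
        norm_integral_le_integral_norm _
    _ ≤ ∫ θ, x ^ (-η) * (Real.exp (η ^ 2) / η) * Real.exp (-(H ^ 2) / 2) *
          Real.exp (-(1 / 2) * θ ^ 2) :=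
        integral_mono ((ph_int hη hx).sub (pt_int hη hx H)).norm
          ((gauss (1 / 2) (by norm_num)).const_mul _) (ph_sub_pt hη hx hH)
    _ = x ^ (-η) * (Real.exp (η ^ 2) / η) * Real.exp (-(H ^ 2) / 2) *
          ∫ θ : ℝ, Real.exp (-(1 / 2) * θ ^ 2) := integral_const_mul _ _
    _ ≤ _ := by
        refine mul_le_mul_of_nonneg_left ?_ (by positivity)
        unfold JJ
        linarith [integral_nonneg (μ := volume)
          (f := fun θ : ℝ => Real.exp (-1 * θ ^ 2)) fun θ => (Real.exp_pos _).le]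

/-- the truncated coefficient -/
def be (η H u : ℝ) (p : ℕ × ℕ) : ℂ :=
  ((2 * (√(ht p))⁻¹ : ℝ) : ℂ) * (((2 * Real.pi : ℝ) : ℂ)⁻¹ *
    ∫ θ, pt η (2 * Real.pi * ht p / u) H θ)

/-- the factor of one coordinate of the integrand -/
def GG (η H r u c : ℝ) (p : ℕ × ℕ) (θ : ℝ) : ℂ :=
  ((p.2 : ℂ) ^ (I * ((c : ℂ) + I * gam 1 η H r Kd.R θ))) *
    ((p.1 : ℂ) ^ (-(I * ((c : ℂ) - I * gam 1 η H r Kd.R θ)))) * (((√(ht p))⁻¹ : ℝ) : ℂ) *
    gam 1 η H r Kd.R θ * wt 1 η H r u Kd.R θ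

lemma GG_eq {η H r u c : ℝ} (hη : 0 < η) (hu : 0 < u) {p : ℕ × ℕ} (h1 : 0 < p.1) (h2 : 0 < p.2)
    (θ : ℝ) : GG η H r u c p θ = cexp (I * ((c * lam p : ℝ) : ℂ)) *
      (((2 * (√(ht p))⁻¹ : ℝ) : ℂ) * (((2 * Real.pi : ℝ) : ℂ)⁻¹ *
        pt η (2 * Real.pi * ht p / u) H θ)) := by
  have hg : gam 1 η H r Kd.R θ = (η : ℂ) + I * θ := rfl
  have hd : dom 1 η H Kd.R = Icc (-H) H := rfl
  unfold GG wt pt
  rw [hd, hg]
  by_cases h : θ ∈ Icc (-H) H
  · rw [if_pos h, indicator_of_mem h]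
    have h3 : ((p.1 : ℕ) : ℂ) ≠ 0 := by exact_mod_cast h1.ne'
    have h4 : ((p.2 : ℕ) : ℂ) ≠ 0 := by exact_mod_cast h2.ne'
    rw [Complex.cpow_def_of_ne_zero h3, Complex.cpow_def_of_ne_zero h4, ← Complex.natCast_log,
      ← Complex.natCast_log]
    have h5 : (0:ℝ) < p.1 := by exact_mod_cast h1
    have h6 : (0:ℝ) < p.2 := by exact_mod_cast h2
    have e1 : Real.log (2 * Real.pi * ht p / u) = Real.log p.1 + Real.log p.2 -
        Real.log (u / (2 * Real.pi)) := by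
      unfold ht
      rw [Real.log_div (by positivity) hu.ne', Real.log_div hu.ne' (by positivity),
        Real.log_mul (by positivity) (by positivity), Real.log_mul h5.ne' h6.ne']
      ring
    unfold ph kr lam
    rw [e1]
    set L := Real.log (u / (2 * Real.pi)) with hL
    have hs := s_ne hη θ
    set s : ℂ := (η : ℂ) + I * θ with hs'
    have e2 : cexp (-(s * ((Real.log p.1 + Real.log p.2 - L : ℝ) : ℂ))) =
        cexp ((Real.log p.2 : ℂ) * (-s)) * cexp ((Real.log p.1 : ℂ) * (-s)) *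
          cexp (s * (L : ℝ)) := by
      rw [← Complex.exp_add, ← Complex.exp_add]
      congr 1
      push_cast
      ring
    have e3 : cexp ((Real.log p.2 : ℂ) * (I * ((c : ℂ) + I * s))) =
        cexp ((Real.log p.2 : ℂ) * (-s)) * cexp (I * (c * Real.log p.2)) := by
      rw [← Complex.exp_add]
      congr 1
      linear_combination ((Real.log p.2 : ℂ) * s) * I_mul_I
    have e4 : cexp ((Real.log p.1 : ℂ) * (-(I * ((c : ℂ) - I * s)))) =
        cexp ((Real.log p.1 : ℂ) * (-s)) * cexp (-(I * (c * Real.log p.1))) := by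
      rw [← Complex.exp_add]
      congr 1
      linear_combination ((Real.log p.1 : ℂ) * s) * I_mul_I
    have e5 : cexp (I * ((c * (Real.log p.2 - Real.log p.1) : ℝ) : ℂ)) =
        cexp (I * (c * Real.log p.2)) * cexp (-(I * (c * Real.log p.1))) := by
      rw [← Complex.exp_add]
      congr 1
      push_cast
      ring
    rw [e2, e3, e4, e5]
    push_cast
    have hpi : (Real.pi : ℂ) ≠ 0 := by exact_mod_cast Real.pi_ne_zero
    field_simp
  · rw [if_neg h, indicator_of_notMem h]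
    ring

lemma GG_int {η H r u c : ℝ} (hη : 0 < η) (hu : 0 < u) {p : ℕ × ℕ} (h1 : 0 < p.1) (h2 : 0 < p.2) :
    Integrable (GG η H r u c p) := by
  have h3 : GG η H r u c p = fun θ => cexp (I * ((c * lam p : ℝ) : ℂ)) *
      (((2 * (√(ht p))⁻¹ : ℝ) : ℂ) * (((2 * Real.pi : ℝ) : ℂ)⁻¹ *
        pt η (2 * Real.pi * ht p / u) H θ)) := funext fun θ => GG_eq hη hu h1 h2 θ
  rw [h3]
  have h4 := ht_pos h1 h2
  have h5 := pt_int hη (x := 2 * Real.pi * ht p / u) (by positivity) H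
  exact ((h5.const_mul _).const_mul _).const_mul _

lemma GG_integral {η H r u c : ℝ} (hη : 0 < η) (hu : 0 < u) {p : ℕ × ℕ} (h1 : 0 < p.1)
    (h2 : 0 < p.2) :
    ∫ θ, GG η H r u c p θ = cexp (I * ((c * lam p : ℝ) : ℂ)) * be η H u p := by
  unfold be
  rw [← integral_const_mul, ← integral_const_mul, ← integral_const_mul]
  exact integral_congr_ae (Eventually.of_forall fun θ => GG_eq hη hu h1 h2 θ)

/-- comparison of the argument of the weight with the height -/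
lemma arg_le {η : ℝ} (hη : 0 ≤ η) {u T : ℝ} (hu : 0 < u) (hT : 0 < T) (huT : u ≤ 2 * T) {p : ℕ × ℕ}
    (h1 : 0 < p.1) (h2 : 0 < p.2) :
    (2 * Real.pi * ht p / u) ^ (-η) ≤ T ^ η * (ht p) ^ (-η) := by
  have h3 := ht_pos h1 h2
  have h4 : ht p / T ≤ 2 * Real.pi * ht p / u := by
    rw [div_le_div_iff₀ hT hu]
    have h5 := Real.pi_gt_three
    have h6 : 0 ≤ ht p * T := by positivity
    nlinarith
  calc (2 * Real.pi * ht p / u) ^ (-η) ≤ (ht p / T) ^ (-η) :=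
        Real.rpow_le_rpow_of_nonpos (by positivity) h4 (by linarith)
    _ = T ^ η * (ht p) ^ (-η) := by
        rw [Real.div_rpow (by linarith) hT.le, Real.rpow_neg hT.le η, div_inv_eq_mul, mul_comm]

lemma GG_norm {η H r u c T : ℝ} (hη : 0 < η) (hu : 0 < u) (hT : 0 < T) (huT : u ≤ 2 * T)
    {p : ℕ × ℕ} (h1 : 0 < p.1) (h2 : 0 < p.2) :
    ∫ θ, ‖GG η H r u c p θ‖ ≤ (2 * (Real.exp (η ^ 2) / η) * JJ * T ^ η) * hh η p := by
  have h3 := ht_pos h1 h2
  have h4 : ∀ θ, ‖GG η H r u c p θ‖ = (2 * (√(ht p))⁻¹ * (2 * Real.pi)⁻¹) *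
      ‖pt η (2 * Real.pi * ht p / u) H θ‖ := by
    intro θ
    rw [GG_eq hη hu h1 h2, norm_mul, norm_mul, norm_mul, norm_inv, Complex.norm_real,
      Complex.norm_real, mul_comm I, Complex.norm_exp_ofReal_mul_I, one_mul,
      Real.norm_of_nonneg (by positivity), Real.norm_of_nonneg (by positivity)]
    ring
  simp only [h4]
  rw [integral_const_mul]
  have h5 := pt_integral_norm hη (x := 2 * Real.pi * ht p / u) (by positivity) H
  have h6 := arg_le hη.le hu hT huT h1 h2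
  have h7 : (2 * Real.pi)⁻¹ ≤ 1 := by
    apply inv_le_one_of_one_le₀
    nlinarith [Real.pi_gt_three]
  have h8 := JJ_nonneg
  calc (2 * (√(ht p))⁻¹ * (2 * Real.pi)⁻¹) * ∫ θ, ‖pt η (2 * Real.pi * ht p / u) H θ‖
      ≤ (2 * (√(ht p))⁻¹ * 1) * ((T ^ η * (ht p) ^ (-η)) * (Real.exp (η ^ 2) / η) * JJ) := by
        refine mul_le_mul ?_ (h5.trans ?_) ?_ (by positivity)
        · exact mul_le_mul_of_nonneg_left h7 (by positivity)
        · gcongr
        · exact integral_nonneg fun _ => norm_nonneg _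
    _ = _ := by
        unfold hh
        ring

lemma be_norm {η H u T : ℝ} (hη : 0 < η) (hu : 0 < u) (hT : 0 < T) (huT : u ≤ 2 * T)
    {p : ℕ × ℕ} (h1 : 0 < p.1) (h2 : 0 < p.2) :
    ‖be η H u p‖ ≤ (2 * (Real.exp (η ^ 2) / η) * JJ * T ^ η) * hh η p := by
  have h3 := GG_norm (H := H) (r := 1) (c := 0) hη hu hT huT h1 h2
  have h4 := GG_integral (H := H) (r := 1) (c := 0) hη hu h1 h2
  have h5 := norm_integral_le_integral_norm (μ := volume) (GG η H 1 u 0 p)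
  rw [h4, zero_mul, Complex.ofReal_zero, mul_zero, Complex.exp_zero, one_mul] at h5
  exact h5.trans h3

lemma co_sub_be (hV : S_V) {η H u T : ℝ} (hη : 0 < η) (hH : 0 ≤ H) (hu : 0 < u) (hT : 0 < T)
    (huT : u ≤ 2 * T) {p : ℕ × ℕ} (h1 : 0 < p.1) (h2 : 0 < p.2) :
    ‖(co p u : ℂ) - be η H u p‖ ≤
      (2 * (Real.exp (η ^ 2) / η) * JJ * T ^ η) * Real.exp (-(H ^ 2) / 2) * hh η p := by
  have h3 := ht_pos h1 h2
  have hx : 0 < 2 * Real.pi * ht p / u := by positivity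
  have hVM := hV.2.2.2.2.2.2 η _ hη hx
  have e1 : (co p u : ℂ) = ((2 * (√(ht p))⁻¹ : ℝ) : ℂ) * (((2 * Real.pi : ℝ) : ℂ)⁻¹ *
      ∫ θ, ph η (2 * Real.pi * ht p / u) θ) := by
    unfold co
    rw [Complex.ofReal_mul, hVM]
    rfl
  rw [e1]
  unfold be
  rw [← mul_sub, ← mul_sub, norm_mul, norm_mul, norm_inv, Complex.norm_real, Complex.norm_real,
    Real.norm_of_nonneg (by positivity), Real.norm_of_nonneg (by positivity)]
  have h5 := ph_pt_integral hη hx hH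
  have h6 := arg_le hη.le hu hT huT h1 h2
  have h7 : (2 * Real.pi)⁻¹ ≤ 1 := by
    apply inv_le_one_of_one_le₀
    nlinarith [Real.pi_gt_three]
  have h8 := JJ_nonneg
  calc _ ≤ 2 * (√(ht p))⁻¹ * (1 * ((T ^ η * (ht p) ^ (-η)) * (Real.exp (η ^ 2) / η) *
        Real.exp (-(H ^ 2) / 2) * JJ)) := by
        refine mul_le_mul_of_nonneg_left ?_ (by positivity)
        refine mul_le_mul h7 (h5.trans ?_) (norm_nonneg _) (by norm_num)
        gcongr
    _ = _ := by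
        unfold hh
        ring

/-- bound for the coefficients -/
lemma co_norm (hV : S_V) {η : ℝ} (hη : 0 < η) : ∃ C : ℝ, 0 < C ∧ ∀ (u T : ℝ), 0 < u → 0 < T →
    u ≤ 2 * T → ∀ p : ℕ × ℕ, 0 < p.1 → 0 < p.2 → |co p u| ≤ C * T ^ η * hh η p := by
  obtain ⟨C, hC, h⟩ := hV.2.2.2.2.2.1 η hη.le
  refine ⟨2 * C, by positivity, fun u T hu hT huT p h1 h2 => ?_⟩
  have h3 := ht_pos h1 h2
  have hx : 0 < 2 * Real.pi * ht p / u := by positivity
  have h4 := h _ hx
  have h5 := (hV.1 _ hx).1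
  unfold co
  rw [abs_of_nonneg (by positivity)]
  calc _ ≤ 2 * (√(ht p))⁻¹ * (C * (T ^ η * (ht p) ^ (-η))) := by
        refine mul_le_mul_of_nonneg_left (h4.trans ?_) (by positivity)
        exact mul_le_mul_of_nonneg_left (arg_le hη.le hu hT huT h1 h2) hC.le
    _ = _ := by
        unfold hh
        ring

/-- the coefficients of large height -/
lemma co_large (hV : S_V) {η B : ℝ} (hη : 0 < η) (hB : 0 ≤ B) : ∃ C : ℝ, 0 < C ∧
    ∀ (u T Y : ℝ), 0 < u → 1 ≤ T → u ≤ 2 * T → 0 < Y → ∀ p : ℕ × ℕ, 0 < p.1 → 0 < p.2 →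
      Y * T ≤ ht p → |co p u| ≤ C * T ^ η * Y ^ (-B) * hh η p := by
  obtain ⟨C, hC, h⟩ := hV.2.2.2.2.2.1 (η + B) (by linarith)
  refine ⟨2 * C, by positivity, fun u T Y hu hT huT hY p h1 h2 hp => ?_⟩
  have h3 := ht_pos h1 h2
  have hx : 0 < 2 * Real.pi * ht p / u := by positivity
  have h4 := h _ hx
  have h5 := (hV.1 _ hx).1
  have h6 : Y ≤ 2 * Real.pi * ht p / u := by
    rw [le_div_iff₀ hu]
    have h7 := Real.pi_gt_three
    nlinarith
  have h8 : (2 * Real.pi * ht p / u) ^ (-(η + B)) ≤ (T ^ η * (ht p) ^ (-η)) * Y ^ (-B) := by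
    rw [neg_add, Real.rpow_add hx]
    refine mul_le_mul (arg_le hη.le hu (by linarith) huT h1 h2) ?_ (by positivity)
      (by positivity)
    exact Real.rpow_le_rpow_of_nonpos hY h6 (by linarith)
  unfold co
  rw [abs_of_nonneg (by positivity)]
  calc _ ≤ 2 * (√(ht p))⁻¹ * (C * ((T ^ η * (ht p) ^ (-η)) * Y ^ (-B))) := by
        refine mul_le_mul_of_nonneg_left (h4.trans ?_) (by positivity)
        exact mul_le_mul_of_nonneg_left h8 hC.le
    _ = _ := by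
        unfold hh
        ring

end

end Pool.Agent.Y180.GP
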